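import Pool.Agent.W425.BF.Stm

set_option autoImplicit false

/-! BF-IA: generating functions of the cones of the normal fan. -/

namespace Pool.Agent.W233.BF

open Pool.Agent.W426.SM (gord face IsRay)
open Pool.Agent.W803.SM (filt gord_le exists_gord filt_nonempty mem_filt summable_half)
open Pool.Agent.W425.BF

variable {n k : ℕ}

/-- the variables -/
noncomputable def Yv (p : ℕ) (c : Fin n → ℕ) (m : Fin k → Fin n → ℕ) (j0 : Fin k) (z t : ℂ)
    (x : Fin n) : ℂ :=
  (p : ℂ)⁻¹ * z ^ c x * t ^ m j0 x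

theorem W2_eq (p : ℕ) (c : Fin n → ℕ) (m : Fin k → Fin n → ℕ) (j0 : Fin k) (z t : ℂ)
    (u : Fin n → ℕ) (h : ∑ x, u x * m j0 x = gord m u) :
    W2 p c (gord m u) z t u = ∏ x, Yv p c m j0 z t x ^ u x := by
  unfold W2 Yv
  rw [← h]
  simp only [mul_pow, Finset.prod_mul_distrib, ← pow_mul, Finset.prod_pow_eq_pow_sum]
  congr 2
  refine Finset.sum_congr rfl fun x _ => mul_comm _ _

theorem norm_inv_le {p : ℕ} (hp : 2 ≤ p) : ‖(p : ℂ)⁻¹‖ ≤ 1 / 2 := by
  rw [norm_inv, Complex.norm_natCast, one_div]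
  have : (2 : ℝ) ≤ p := by exact_mod_cast hp
  exact inv_anti₀ (by norm_num) this

theorem norm_Yv {p : ℕ} (hp : 2 ≤ p) (c : Fin n → ℕ) (m : Fin k → Fin n → ℕ) (j0 : Fin k)
    {z t : ℂ} (hz : ‖z‖ ≤ 1) (ht : ‖t‖ ≤ 1) (x : Fin n) : ‖Yv p c m j0 z t x‖ < 1 := by
  unfold Yv
  rw [norm_mul, norm_mul, norm_pow, norm_pow]
  have h1 := norm_inv_le hp
  have h2 : ‖z‖ ^ c x ≤ 1 := pow_le_one₀ (norm_nonneg _) hz
  have h3 : ‖t‖ ^ m j0 x ≤ 1 := pow_le_one₀ (norm_nonneg _) ht
  calc ‖(p : ℂ)⁻¹‖ * ‖z‖ ^ c x * ‖t‖ ^ m j0 x ≤ (1 / 2) * 1 * 1 := by gcongr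
    _ < 1 := by norm_num

theorem norm_W2 {p : ℕ} (hp : 2 ≤ p) (c : Fin n → ℕ) (N : ℕ)
    {z t : ℂ} (hz : ‖z‖ ≤ 1) (ht : ‖t‖ ≤ 1) (u : Fin n → ℕ) :
    ‖W2 p c N z t u‖ ≤ ∏ x, ((1 : ℝ) / 2) ^ u x := by
  unfold W2
  rw [norm_mul, norm_mul, norm_pow, norm_pow, norm_pow, Finset.prod_pow_eq_pow_sum]
  have h1 : ‖(p : ℂ)⁻¹‖ ^ (∑ x, u x) ≤ (1 / 2) ^ (∑ x, u x) :=
    pow_le_pow_left₀ (norm_nonneg _) (norm_inv_le hp) _
  have h2 : ‖z‖ ^ (∑ x, c x * u x) ≤ 1 := pow_le_one₀ (norm_nonneg _) hz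
  have h3 : ‖t‖ ^ N ≤ 1 := pow_le_one₀ (norm_nonneg _) ht
  calc ‖(p : ℂ)⁻¹‖ ^ (∑ x, u x) * ‖z‖ ^ (∑ x, c x * u x) * ‖t‖ ^ N
      ≤ (1 / 2) ^ (∑ x, u x) * 1 * 1 := by gcongr
    _ = (1 / 2) ^ (∑ x, u x) := by ring

/-- the lattice points with a given set of minimal monomials -/
theorem key (h1 : TaskGF) (m : Fin k → Fin n → ℕ)
    (τ : Finset (Fin k)) (hτ : τ.Nonempty) :
    ∃ (j0 : Fin k) (T : ℕ) (ray : Fin T → Fin n → ℕ) (P : MvPolynomial (Fin n) ℤ),
      (∀ q, IsRay m (ray q)) ∧ ∀ (p : ℕ), 2 ≤ p → ∀ (c : Fin n → ℕ) (z t : ℂ), ‖z‖ ≤ 1 →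
        ‖t‖ ≤ 1 →
        (∑' u : ({u | filt m u = τ} : Set (Fin n → ℕ)), W2 p c (gord m u) z t u) *
          ∏ q, (1 - W2 p c (gord m (ray q)) z t (ray q)) =
            MvPolynomial.aeval (Yv p c m j0 z t) P := by
  obtain ⟨j0, hj0⟩ := hτ
  obtain ⟨T, ray, P, hray, hP⟩ := h1 (ι := Fin k ⊕ Fin k)
    (Sum.elim (fun l x => (m l x : ℤ) - m j0 x)
      (fun l x => if l ∈ τ then -((m l x : ℤ) - m j0 x) else 0))
    (Sum.elim (fun l => if l ∈ τ then 0 else 1) (fun _ => 0))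
  have hsum : ∀ (l : Fin k) (u : Fin n → ℕ), ∑ i, ((m l i : ℤ) - m j0 i) * (u i : ℤ) =
      ((∑ i, u i * m l i : ℕ) : ℤ) - ((∑ i, u i * m j0 i : ℕ) : ℤ) := by
    intro l u
    push_cast
    rw [← Finset.sum_sub_distrib]
    refine Finset.sum_congr rfl fun i _ => ?_
    ring
  have hsum2 : ∀ (l : Fin k) (u : Fin n → ℕ), l ∈ τ →
      ∑ i, (if l ∈ τ then -((m l i : ℤ) - m j0 i) else 0) * (u i : ℤ) =
      -(((∑ i, u i * m l i : ℕ) : ℤ) - ((∑ i, u i * m j0 i : ℕ) : ℤ)) := by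
    intro l u hl
    rw [← hsum, ← Finset.sum_neg_distrib]
    refine Finset.sum_congr rfl fun i _ => ?_
    rw [if_pos hl]
    ring
  have hset : ({u | filt m u = τ} : Set (Fin n → ℕ)) =
      Pol (Sum.elim (fun l x => (m l x : ℤ) - m j0 x)
      (fun l x => if l ∈ τ then -((m l x : ℤ) - m j0 x) else 0))
    (Sum.elim (fun l => if l ∈ τ then 0 else 1) (fun _ => 0)) := by
    ext u
    simp only [Set.mem_ofPred_eq, Pol, Sum.forall, Sum.elim_inl, Sum.elim_inr, hsum]
    constructor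
    · intro h
      have h0 : ∑ i, u i * m j0 i = gord m u := mem_filt.1 (h ▸ hj0)
      refine ⟨fun j => ?_, fun j => ?_⟩
      · split_ifs with hj
        · have : ∑ i, u i * m j i = gord m u := mem_filt.1 (h ▸ hj)
          rw [this, h0, sub_self]
        · have h2 : ∑ i, u i * m j i ≠ gord m u := fun h3 => hj (h ▸ mem_filt.2 h3)
          have h3 := gord_le m u j
          rw [h0]
          omega
      · by_cases hj : j ∈ τ
        · rw [hsum2 j u hj]
          have : ∑ i, u i * m j i = gord m u := mem_filt.1 (h ▸ hj)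
          rw [this, h0, sub_self, neg_zero]
        · simp [hj]
    · rintro ⟨ha, hb⟩
      have h0 : ∑ i, u i * m j0 i = gord m u := by
        obtain ⟨j, hj⟩ := exists_gord (Fin.pos j0) m u
        have h2 := ha j
        have h3 := gord_le m u j0
        have h4 : (0 : ℤ) ≤ if j ∈ τ then 0 else 1 := by split_ifs <;> norm_num
        omega
      ext j
      rw [mem_filt]
      constructor
      · intro h
        by_contra hj
        have h2 := ha j
        rw [if_neg hj] at h2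
        omega
      · intro hj
        have h2 := hb j
        rw [hsum2 j u hj] at h2
        have h3 := gord_le m u j
        omega
  have hmin : ∀ q, ∑ i, ray q i * m j0 i = gord m (ray q) := by
    intro q
    obtain ⟨j, hj⟩ := exists_gord (Fin.pos j0) m (ray q)
    have h2 := (hray q).2.1 (Sum.inl j)
    have h3 := gord_le m (ray q) j0
    simp only [Sum.elim_inl] at h2
    rw [hsum] at h2
    omega
  refine ⟨j0, T, ray, P, fun q => ⟨(hray q).1, fun u hu hu2 => ?_⟩,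
    fun p hp c z t hz ht => ?_⟩
  · have hone : ∀ j, ∑ i, ((m j i : ℤ) - m j0 i) * (ray q i : ℤ) = 0 →
        ∑ i, (((m j i : ℤ) - m j0 i : ℤ) : ℚ) * u i = 0 := by
      intro j hj
      rw [hsum] at hj
      have hfj : face m (ray q) j := by
        have := hmin q
        show ∑ i, ray q i * m j i = gord m (ray q)
        omega
      have h2 := hu2 j j0 hfj (hmin q)
      have h3 : ∑ i, (((m j i : ℤ) - m j0 i : ℤ) : ℚ) * u i =
          ∑ i, u i * m j i - ∑ i, u i * m j0 i := by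
        rw [← Finset.sum_sub_distrib]
        refine Finset.sum_congr rfl fun i _ => ?_
        push_cast
        ring
      rw [h3, h2, sub_self]
    refine (hray q).2.2 u hu fun j hj => ?_
    rcases j with j | j
    · exact hone j hj
    · simp only [Sum.elim_inr] at hj ⊢
      by_cases hjτ : j ∈ τ
      · rw [hsum2 j _ hjτ, neg_eq_zero, ← hsum] at hj
        have h4 := hone j hj
        have h5 : ∑ i, (((if j ∈ τ then -((m j i : ℤ) - m j0 i) else 0 : ℤ)) : ℚ) * u i =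
            -∑ i, (((m j i : ℤ) - m j0 i : ℤ) : ℚ) * u i := by
          rw [← Finset.sum_neg_distrib]
          refine Finset.sum_congr rfl fun i _ => ?_
          rw [if_pos hjτ]
          push_cast
          ring
        rw [h5, h4, neg_zero]
      · simp [hjτ]
  · have h2 := hP (Yv p c m j0 z t) (norm_Yv hp c m j0 hz ht)
    rw [← h2]
    congr 1
    · rw [← tsum_congr_set_coe (fun u : Fin n → ℕ => ∏ i, Yv p c m j0 z t i ^ u i) hset]
      refine tsum_congr fun u => ?_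
      have h5 : filt m u.1 = τ := u.2
      exact W2_eq p c m j0 z t _ (mem_filt.1 (by rw [h5]; exact hj0))
    · refine Finset.prod_congr rfl fun q _ => ?_
      rw [W2_eq p c m j0 z t _ (hmin q)]

/-- evaluation as a ring homomorphism -/
noncomputable def E2 (z t : ℂ) : Polynomial (Polynomial ℂ) →+* ℂ :=
  Polynomial.eval₂RingHom (Polynomial.evalRingHom z) t

theorem ev2_eq (A : Polynomial (Polynomial ℂ)) (z t : ℂ) : ev2 A z t = E2 z t A := rfl

theorem E2_X (z t : ℂ) : E2 z t Polynomial.X = t := by simp [E2]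

theorem E2_C (z t : ℂ) (f : Polynomial ℂ) : E2 z t (Polynomial.C f) = f.eval z := by simp [E2]

theorem E2_map (z t : ℂ) (f : Polynomial ℂ) :
    E2 z t (Polynomial.map Polynomial.C f) = f.eval t := by
  have : E2 z t (Polynomial.map Polynomial.C f) =
      Polynomial.eval₂ ((Polynomial.evalRingHom z).comp Polynomial.C) t f := by
    show Polynomial.eval₂ (Polynomial.evalRingHom z) t (Polynomial.map Polynomial.C f) = _
    rw [Polynomial.eval₂_map]
  rw [this]
  have h2 : (Polynomial.evalRingHom z).comp Polynomial.C = RingHom.id ℂ := by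
    ext a; simp
  rw [h2]
  rfl

theorem E2_aeval (z t : ℂ) (f : Fin n → Polynomial (Polynomial ℂ)) (P : MvPolynomial (Fin n) ℤ) :
    E2 z t (MvPolynomial.aeval f P) = MvPolynomial.aeval (fun x => E2 z t (f x)) P := by
  induction P using MvPolynomial.induction_on with
  | C a => simp
  | add P Q hP hQ => simp only [map_add, hP, hQ]
  | mul_X P i hP => simp only [map_mul, MvPolynomial.aeval_X, hP]

/-- the weight as a polynomial -/
noncomputable def Wp (p : ℕ) (c : Fin n → ℕ) (N : ℕ) (u : Fin n → ℕ) :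
    Polynomial (Polynomial ℂ) :=
  Polynomial.C (Polynomial.C ((p : ℂ)⁻¹ ^ (∑ x, u x)) * Polynomial.X ^ (∑ x, c x * u x)) *
    Polynomial.X ^ N

theorem E2_Wp (p : ℕ) (c : Fin n → ℕ) (N : ℕ) (u : Fin n → ℕ) (z t : ℂ) :
    E2 z t (Wp p c N u) = W2 p c N z t u := by
  unfold Wp W2
  rw [map_mul, map_pow (E2 z t) Polynomial.X N, E2_X, E2_C]
  simp

/-- the variables as polynomials -/
noncomputable def Yp (p : ℕ) (c : Fin n → ℕ) (m : Fin k → Fin n → ℕ) (j0 : Fin k)
    (x : Fin n) : Polynomial (Polynomial ℂ) :=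
  Polynomial.C (Polynomial.C ((p : ℂ)⁻¹) * Polynomial.X ^ c x) * Polynomial.X ^ m j0 x

theorem E2_Yp (p : ℕ) (c : Fin n → ℕ) (m : Fin k → Fin n → ℕ) (j0 : Fin k) (z t : ℂ)
    (x : Fin n) : E2 z t (Yp p c m j0 x) = Yv p c m j0 z t x := by
  unfold Yp Yv
  rw [map_mul, map_pow (E2 z t) Polynomial.X (m j0 x), E2_X, E2_C]
  simp

theorem main : TaskIA := by
  intro hGF n k m hk
  choose j0 T ray P hray hP using fun τ : {τ : Finset (Fin k) // τ.Nonempty} =>
    key hGF m τ.1 τ.2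
  set E := (Σ τ : {τ : Finset (Fin k) // τ.Nonempty}, Fin (T τ)) with hE
  set ψ : E ≃ Fin (Fintype.card E) := Fintype.equivFin E with hψ
  refine ⟨Fintype.card E, fun q => ray (ψ.symm q).1 (ψ.symm q).2, fun q => hray _ _, ?_⟩
  intro p hp c γ
  refine ⟨∑ τ : {τ : Finset (Fin k) // τ.Nonempty},
    Polynomial.map Polynomial.C (γ τ.1) * MvPolynomial.aeval (Yp p c m (j0 τ)) (P τ) *
      ∏ τ' ∈ Finset.univ.erase τ, ∏ q, (1 - Wp p c (gord m (ray τ' q)) (ray τ' q)), ?_⟩
  intro z t hz ht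
  set D : {τ : Finset (Fin k) // τ.Nonempty} → ℂ :=
    fun τ => ∏ q, (1 - W2 p c (gord m (ray τ q)) z t (ray τ q)) with hD
  have hev : ev2 (∑ τ : {τ : Finset (Fin k) // τ.Nonempty},
    Polynomial.map Polynomial.C (γ τ.1) * MvPolynomial.aeval (Yp p c m (j0 τ)) (P τ) *
      ∏ τ' ∈ Finset.univ.erase τ, ∏ q, (1 - Wp p c (gord m (ray τ' q)) (ray τ' q))) z t =
      ∑ τ : {τ : Finset (Fin k) // τ.Nonempty},
        (γ τ.1).eval t * MvPolynomial.aeval (Yv p c m (j0 τ) z t) (P τ) *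
          ∏ τ' ∈ Finset.univ.erase τ, D τ' := by
    rw [ev2_eq, map_sum]
    refine Finset.sum_congr rfl fun τ _ => ?_
    have hY : (fun x => E2 z t (Yp p c m (j0 τ) x)) = Yv p c m (j0 τ) z t :=
      funext fun x => E2_Yp p c m (j0 τ) z t x
    rw [map_mul, map_mul, E2_map, E2_aeval, map_prod, hY]
    congr 1
    · refine Finset.prod_congr rfl fun τ' _ => ?_
      rw [map_prod]
      refine Finset.prod_congr rfl fun q _ => ?_
      rw [map_sub, map_one, E2_Wp]
  rw [hev]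
  -- the sum
  have hsumm : Summable (fun u : Fin n → ℕ => W2 p c (gord m u) z t u *
      (γ (filt m u)).eval t) := by
    refine Summable.of_norm_bounded
      (g := fun u : Fin n → ℕ => (∏ i, ((1 : ℝ) / 2) ^ u i) *
        ∑ τ : Finset (Fin k), ‖(γ τ).eval t‖)
      (summable_half.mul_right _) fun u => ?_
    rw [norm_mul]
    refine mul_le_mul (norm_W2 hp c _ hz ht u) ?_ (norm_nonneg _)
      (Finset.prod_nonneg fun i _ => by positivity)
    exact Finset.single_le_sum (f := fun τ => ‖(γ τ).eval t‖) (fun τ _ => norm_nonneg _)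
      (Finset.mem_univ (filt m u))
  have hsplit : ∑' u : Fin n → ℕ, W2 p c (gord m u) z t u * (γ (filt m u)).eval t =
      ∑ τ : {τ : Finset (Fin k) // τ.Nonempty},
        (∑' u : ({u | filt m u = τ.1} : Set (Fin n → ℕ)), W2 p c (gord m u) z t u) *
          (γ τ.1).eval t := by
    set φ : (Fin n → ℕ) → {τ : Finset (Fin k) // τ.Nonempty} :=
      fun u => ⟨filt m u, filt_nonempty hk m u⟩ with hφ
    have h3 := (Equiv.sigmaFiberEquiv φ).tsum_eq
      (fun u : Fin n → ℕ => W2 p c (gord m u) z t u * (γ (filt m u)).eval t)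
    have h4 : Summable (fun x : (Σ τ, {u // φ u = τ}) =>
        W2 p c (gord m ((Equiv.sigmaFiberEquiv φ) x)) z t ((Equiv.sigmaFiberEquiv φ) x) *
          (γ (filt m ((Equiv.sigmaFiberEquiv φ) x))).eval t) :=
      (Equiv.summable_iff (Equiv.sigmaFiberEquiv φ)).2 hsumm
    rw [← h3, h4.tsum_sigma, tsum_fintype]
    refine Finset.sum_congr rfl fun τ _ => ?_
    rw [← tsum_mul_right]
    have h5 : ({u | filt m u = τ.1} : Set (Fin n → ℕ)) = {u | φ u = τ} := by
      ext u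
      simp only [Set.mem_ofPred_eq, hφ]
      exact ⟨fun h => Subtype.ext h, fun h => congrArg Subtype.val h⟩
    rw [tsum_congr_set_coe
      (fun u : Fin n → ℕ => W2 p c (gord m u) z t u * (γ τ.1).eval t) h5]
    refine tsum_congr fun u => ?_
    have h6 : filt m u.1 = τ.1 := congrArg Subtype.val u.2
    show W2 p c (gord m u.1) z t u.1 * (γ (filt m u.1)).eval t = _
    rw [h6]
  have hprod : ∏ q : Fin (Fintype.card E),
      (1 - W2 p c (gord m (ray (ψ.symm q).1 (ψ.symm q).2)) z t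
        (ray (ψ.symm q).1 (ψ.symm q).2)) = ∏ τ, D τ := by
    rw [Equiv.prod_comp ψ.symm
      (fun x : E => 1 - W2 p c (gord m (ray x.1 x.2)) z t (ray x.1 x.2)), Fintype.prod_sigma]
  show (∑' u : Fin n → ℕ, W2 p c (gord m u) z t u * (γ (filt m u)).eval t) *
    (∏ q : Fin (Fintype.card E),
      (1 - W2 p c (gord m (ray (ψ.symm q).1 (ψ.symm q).2)) z t
        (ray (ψ.symm q).1 (ψ.symm q).2))) = _
  rw [hprod, hsplit, Finset.sum_mul]
  refine Finset.sum_congr rfl fun τ _ => ?_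
  rw [← Finset.mul_prod_erase Finset.univ D (Finset.mem_univ τ)]
  have h7 : (∑' u : ({u | filt m u = τ.1} : Set (Fin n → ℕ)), W2 p c (gord m u) z t u) * D τ =
      MvPolynomial.aeval (Yv p c m (j0 τ) z t) (P τ) := hP τ p hp c z t hz ht
  rw [← h7]
  ring

end Pool.Agent.W233.BF
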